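import Pool.Agent.helper43.KG.Spec

set_option autoImplicit false

namespace Pool.Agent.helper43.KG

open Finset MeasureTheory ProbabilityTheory
open scoped ENNReal NNReal

theorem MOM_int (q : ℝ) (hq : 0 ≤ q) : Integrable (fun x => |x| ^ q) (gaussianReal 0 1) := by
  rcases hq.eq_or_lt with h | h
  · rw [← h]
    simp only [Real.rpow_zero]
    exact integrable_const _
  · have h1 : MemLp (id : ℝ → ℝ) ((q.toNNReal : ℝ≥0) : ℝ≥0∞) (gaussianReal 0 1) := memLp_id_gaussianReal _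
    have h2 := h1.integrable_norm_rpow (by
      rw [ne_eq, ENNReal.coe_eq_zero, Real.toNNReal_eq_zero, not_le]
      exact h) ENNReal.coe_ne_top
    have e : (((q.toNNReal : ℝ≥0) : ℝ≥0∞)).toReal = q := by
      rw [ENNReal.coe_toReal, Real.coe_toNNReal _ hq]
    rw [e] at h2
    exact h2

theorem MOM_val (q : ℝ) (hq : 0 ≤ q) : ∫ x, |x| ^ q ∂(gaussianReal 0 1) =
    2 ^ (q / 2) * Real.Gamma ((q + 1) / 2) / Real.sqrt Real.pi := by
  rw [integral_gaussianReal_eq_integral_smul one_ne_zero]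
  have h1 : ∀ x : ℝ, gaussianPDFReal 0 1 x • |x| ^ q = (Real.sqrt (2 * Real.pi))⁻¹ * ((fun y : ℝ => y ^ q * Real.exp (-(1 / 2) * y ^ (2 : ℝ))) |x|) := by
    intro x
    rw [gaussianPDFReal_def, smul_eq_mul]
    dsimp only
    have e1 : |x| ^ (2 : ℝ) = x ^ 2 := by
      rw [Real.rpow_two, sq_abs]
    rw [e1]
    simp only [NNReal.coe_one, mul_one, sub_zero]
    have e2 : -(1 / 2) * x ^ 2 = -x ^ 2 / 2 := by ring
    rw [e2]
    ring
  simp only [h1]
  rw [integral_const_mul, integral_comp_abs (f := fun y : ℝ => y ^ q * Real.exp (-(1 / 2) * y ^ (2 : ℝ))),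
    integral_rpow_mul_exp_neg_mul_rpow (by norm_num : (0 : ℝ) < 2) (by linarith : (-1 : ℝ) < q) (by norm_num : (0 : ℝ) < 1 / 2)]
  have e3 : ((1 : ℝ) / 2) ^ (-(q + 1) / 2) = 2 ^ (q / 2) * Real.sqrt 2 := by
    rw [one_div, Real.inv_rpow (by norm_num), ← Real.rpow_neg (by norm_num), Real.sqrt_eq_rpow, ← Real.rpow_add (by norm_num)]
    congr 1
    ring
  rw [e3, Real.sqrt_mul (by norm_num)]
  have h2 : (0 : ℝ) < Real.sqrt 2 := Real.sqrt_pos.2 (by norm_num)
  have h3 : (0 : ℝ) < Real.sqrt Real.pi := Real.sqrt_pos.2 Real.pi_pos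
  field_simp

theorem MOM_rec (q : ℝ) (hq : 0 ≤ q) : ∫ x, |x| ^ (q + 2) ∂(gaussianReal 0 1) = (q + 1) * ∫ x, |x| ^ q ∂(gaussianReal 0 1) := by
  rw [MOM_val _ hq, MOM_val _ (by linarith)]
  have h1 : (q + 2 + 1) / 2 = (q + 1) / 2 + 1 := by ring
  have h2 : (2 : ℝ) ^ ((q + 2) / 2) = 2 ^ (q / 2) * 2 := by
    have e : (q + 2) / 2 = q / 2 + 1 := by ring
    rw [e, Real.rpow_add (by norm_num), Real.rpow_one]
  rw [h1, h2, Real.Gamma_add_one (by positivity)]
  ring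

theorem t_mom : MOM := by
  intro p hp
  have hg : gam p = ∫ x, |x| ^ p ∂(gaussianReal 0 1) := by
    unfold gam GH
    simp only [zero_add, one_mul]
  refine ⟨?_, MOM_int _ (by linarith), MOM_int _ (by linarith), MOM_int _ hp, ?_, ?_⟩
  · rw [hg, MOM_val _ hp]
  · rw [MOM_rec _ hp, hg]
  · have e : p + 4 = (p + 2) + 2 := by ring
    rw [e, MOM_rec _ (by linarith), MOM_rec _ hp, hg]
    ring

end Pool.Agent.helper43.KG
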