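import Pool.Agent.helper43.KG.Spec

set_option autoImplicit false

namespace Pool.Agent.helper43.KG

open Finset MeasureTheory ProbabilityTheory
open scoped ENNReal

theorem RHO_exp {ι κ : Type} (G : Finset ι) (J : Finset κ) (s : ι → κ → ℝ) :
    ∑ j ∈ J, ∑ k ∈ J, (∑ i ∈ G, s i j * s i k) ^ 2 =
      ∑ i' ∈ G, ∑ k ∈ J, s i' k * ∑ i ∈ G, s i k * ∑ j ∈ J, s i j * s i' j := by
  have h1 : ∀ j ∈ J, ∀ k ∈ J, (∑ i ∈ G, s i j * s i k) ^ 2 = ∑ i' ∈ G, ∑ i ∈ G, (s i' j * s i' k) * (s i j * s i k) := by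
    intro j _ k _
    rw [pow_two, Finset.sum_mul_sum]
  rw [Finset.sum_congr rfl fun j hj => Finset.sum_congr rfl fun k hk => h1 j hj k hk]
  rw [Finset.sum_comm]
  rw [Finset.sum_congr rfl fun k _ => Finset.sum_comm]
  rw [Finset.sum_comm]
  refine Finset.sum_congr rfl fun i' _ => Finset.sum_congr rfl fun k _ => ?_
  rw [Finset.sum_comm, Finset.mul_sum]
  refine Finset.sum_congr rfl fun i _ => ?_
  rw [Finset.mul_sum, Finset.mul_sum]
  refine Finset.sum_congr rfl fun j _ => ?_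
  ring

theorem t_rho : RHO := by
  intro ι κ G J s M hs hM
  have habs : ∀ i j, |s i j| = 1 := by
    intro i j
    rcases hs i j with h | h <;> rw [h] <;> simp
  rw [RHO_exp]
  have h1 : ∀ i' ∈ G, ∀ k ∈ J, s i' k * ∑ i ∈ G, s i k * ∑ j ∈ J, s i j * s i' j ≤ M := by
    intro i' _ k _
    have h2 : |s i' k * ∑ i ∈ G, s i k * ∑ j ∈ J, s i j * s i' j| ≤ ∑ i ∈ G, |∑ j ∈ J, s i j * s i' j| := by
      rw [abs_mul, habs, one_mul]
      refine (Finset.abs_sum_le_sum_abs _ _).trans (le_of_eq ?_)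
      refine Finset.sum_congr rfl fun i _ => ?_
      rw [abs_mul, habs, one_mul]
    exact (le_abs_self _).trans (h2.trans (hM (fun j => s i' j) (fun j => hs i' j)))
  calc ∑ i' ∈ G, ∑ k ∈ J, s i' k * ∑ i ∈ G, s i k * ∑ j ∈ J, s i j * s i' j ≤ ∑ i' ∈ G, ∑ k ∈ J, M :=
        Finset.sum_le_sum fun i' hi => Finset.sum_le_sum fun k hk => h1 i' hi k hk
    _ = G.card * J.card * M := by
      rw [Finset.sum_const, Finset.sum_const, nsmul_eq_mul, nsmul_eq_mul]
      ring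

end Pool.Agent.helper43.KG
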