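import Pool.Agent.helper43.KG.Spec

set_option autoImplicit false

namespace Pool.Agent.helper43.KG

open Finset MeasureTheory ProbabilityTheory
open scoped ENNReal NNReal

theorem SLK_conv (p : ℝ) (hp : 1 ≤ p) : ConvexOn ℝ Set.univ (fun x : ℝ => |x| ^ p) := by
  have h1 : ConvexOn ℝ ((fun x : ℝ => |x|) '' Set.univ) (fun x : ℝ => x ^ p) := by
    refine (convexOn_rpow hp).subset ?_ ?_
    · rintro _ ⟨x, -, rfl⟩
      exact abs_nonneg x
    · have : (fun x : ℝ => |x|) '' Set.univ = Set.Ici 0 := by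
        ext y
        constructor
        · rintro ⟨x, -, rfl⟩
          exact abs_nonneg x
        · intro hy
          exact ⟨y, trivial, abs_of_nonneg hy⟩
      rw [this]
      exact convex_Ici 0
  have h2 : ConvexOn ℝ Set.univ (fun x : ℝ => |x|) := convexOn_univ_norm
  refine h1.comp h2 ?_
  rintro _ ⟨x, -, rfl⟩ _ ⟨y, -, rfl⟩ hxy
  exact Real.rpow_le_rpow (abs_nonneg x) hxy (by linarith)

theorem t_slk (hm : MON) (hk : KHI) : SLK := by
  classical
  intro p r e K d t hp hr hr2 hK he h3 hsum hJ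
  have hnn : 0 ≤ EE (univ : Finset (Fin d)) (fun _ => 0) (fun U => |∑ j, t j * sg U j| ^ p) := by
    have h1 := EE_mono (s := (univ : Finset (Fin d))) (f := fun _ => 0) (by intro j _; simp)
      (F := fun _ => 0) (F' := fun U => |∑ j, t j * sg U j| ^ p) (fun U _ => by positivity)
    rw [EE_const] at h1
    exact h1
  rcases Nat.eq_zero_or_pos d with hd | hd
  · have h4 : (3 * (d : ℝ)) ^ (p / 2) = 0 := by
      rw [hd]
      simp only [Nat.cast_zero, mul_zero]
      exact Real.zero_rpow (by linarith)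
    rw [h4]
    exact hnn
  have hd0 : (0 : ℝ) < d := by exact_mod_cast hd
  set J := univ.filter (fun j => K < |t j|) with hJd
  have he1 : e ≤ 1 := by
    have h4 : ∑ j ∈ J, |t j| ^ r ≤ ∑ j, |t j| ^ r :=
      Finset.sum_le_sum_of_subset_of_nonneg (Finset.subset_univ _) fun j _ _ => by positivity
    have h5 : e * d ≤ 1 * d := by linarith
    exact le_of_mul_le_mul_right h5 hd0
  -- lower bound for S
  have hS : 9 * (d : ℝ) ≤ ∑ j ∈ J, t j ^ 2 := by
    have h4 : ∀ j ∈ J, K ^ (2 - r) * |t j| ^ r ≤ t j ^ 2 := by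
      intro j hj
      rw [hJd, mem_filter] at hj
      have h5 : 0 < |t j| := hK.trans hj.2
      have h6 : K ^ (2 - r) ≤ |t j| ^ (2 - r) := Real.rpow_le_rpow hK.le hj.2.le (by linarith)
      have h7 : |t j| ^ (2 - r) * |t j| ^ r = t j ^ 2 := by
        rw [← Real.rpow_add h5]
        have : 2 - r + r = (2 : ℝ) := by ring
        rw [this, Real.rpow_two, sq_abs]
      rw [← h7]
      exact mul_le_mul_of_nonneg_right h6 (by positivity)
    have h5 : K ^ (2 - r) * (e * d) ≤ ∑ j ∈ J, t j ^ 2 := by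
      refine (mul_le_mul_of_nonneg_left hJ (by positivity)).trans ?_
      rw [Finset.mul_sum]
      exact Finset.sum_le_sum h4
    refine le_trans ?_ h5
    have h6 : (3 : ℝ) ^ 2 ≤ (e ^ (1 / r) * K ^ (1 - r / 2)) ^ 2 := pow_le_pow_left₀ (by norm_num) h3 2
    rw [mul_pow, ← Real.rpow_natCast (e ^ (1 / r)) 2, ← Real.rpow_mul he.le, ← Real.rpow_natCast (K ^ (1 - r / 2)) 2, ← Real.rpow_mul hK.le] at h6
    have e1 : (1 - r / 2) * ((2 : ℕ) : ℝ) = 2 - r := by push_cast; ring
    rw [e1] at h6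
    have h7 : e ^ (1 / r * ((2 : ℕ) : ℝ)) ≤ e := by
      have h8 : e ^ (1 / r * ((2 : ℕ) : ℝ)) ≤ e ^ (1 : ℝ) := by
        refine Real.rpow_le_rpow_of_exponent_ge he he1 ?_
        push_cast
        have h9 : 0 < r := by linarith
        rw [one_div, inv_mul_eq_div, le_div_iff₀ h9]
        linarith
      rwa [Real.rpow_one] at h8
    have h8 : 9 ≤ e * K ^ (2 - r) := by
      have h9 : e ^ (1 / r * ((2 : ℕ) : ℝ)) * K ^ (2 - r) ≤ e * K ^ (2 - r) := mul_le_mul_of_nonneg_right h7 (by positivity)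
      linarith
    nlinarith
  -- MON and KHI
  set c : Fin d → ℝ := fun j => if j ∈ J then 1 else 0 with hc
  have hM := hm (Fin d) univ (fun _ => 0) t c (fun x => |x| ^ p) (SLK_conv p hp) (by intro j _; simp) (by
    intro j _
    rw [hc]
    dsimp only
    split_ifs
    · exact ⟨zero_le_one, le_refl _⟩
    · exact ⟨le_refl _, zero_le_one⟩) 0
  have hKK := hk (Fin d) univ (fun j => c j * t j) p hp
  simp only [zero_add, sub_zero] at hM
  refine le_trans ?_ (hKK.trans hM)
  refine Real.rpow_le_rpow (by positivity) ?_ (by linarith)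
  have h9 : ∑ j, (c j * t j) ^ 2 = ∑ j ∈ J, t j ^ 2 := by
    rw [← Finset.sum_filter_add_sum_filter_not univ (fun j => j ∈ J)]
    have e2 : ∑ j ∈ univ.filter (fun j => ¬ j ∈ J), (c j * t j) ^ 2 = 0 := by
      refine Finset.sum_eq_zero fun j hj => ?_
      rw [mem_filter] at hj
      rw [hc]
      dsimp only
      rw [if_neg hj.2]
      ring
    rw [e2, add_zero]
    have e3 : univ.filter (fun j => j ∈ J) = J := by
      ext j
      simp
    rw [e3]
    refine Finset.sum_congr rfl fun j hj => ?_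
    rw [hc]
    dsimp only
    rw [if_pos hj, one_mul]
  rw [h9]
  linarith

end Pool.Agent.helper43.KG
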