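import Pool.Agent.helper43.KG.Spec

set_option autoImplicit false

namespace Pool.Agent.helper43.KG

open Finset MeasureTheory ProbabilityTheory
open scoped ENNReal

theorem ST5_sn (x : ℝ) : |sn x - x| = |(|x| - 1)| := by
  unfold sn
  split_ifs with h
  · rw [abs_of_nonneg h, abs_sub_comm]
  · push Not at h
    rw [abs_of_neg h]
    have e1 : (-1 : ℝ) - x = -x - 1 := by ring
    rw [e1]

theorem ST5_pt (y D p : ℝ) (hD : 0 < D) (hp : 1 ≤ p) : |y| ≤ D + |y| ^ p * D ^ (1 - p) := by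
  have h0 : 0 ≤ |y| ^ p * D ^ (1 - p) := by positivity
  by_cases h : |y| ≤ D
  · linarith
  · push Not at h
    have hy : 0 < |y| := hD.trans h
    have h1 : D ^ (p - 1) ≤ |y| ^ (p - 1) := Real.rpow_le_rpow hD.le h.le (by linarith)
    have h2 : |y| ^ p = |y| * |y| ^ (p - 1) := by
      rw [← Real.rpow_one_add' hy.le (by linarith)]
      congr 1
      ring
    have h3 : D ^ (p - 1) * D ^ (1 - p) = 1 := by
      rw [← Real.rpow_add hD]
      have : p - 1 + (1 - p) = 0 := by ring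
      rw [this, Real.rpow_zero]
    have h4 : |y| ≤ |y| ^ p * D ^ (1 - p) := by
      rw [h2, mul_assoc]
      refine le_mul_of_one_le_right hy.le ?_
      calc (1 : ℝ) = D ^ (p - 1) * D ^ (1 - p) := h3.symm
        _ ≤ |y| ^ (p - 1) * D ^ (1 - p) := mul_le_mul_of_nonneg_right h1 (by positivity)
    linarith

theorem t_st5 : ST5 := by
  intro p ε d T G hp hp2 hε hd hT hX x hx
  have hd0 : (0 : ℝ) < d := by exact_mod_cast hd
  have hGc : (G.card : ℝ) ≤ d := by
    have := Finset.card_le_univ G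
    rw [Fintype.card_fin] at this
    exact_mod_cast this
  have habs : ∀ j, |x j| = 1 := by
    intro j
    rcases hx j with h | h <;> rw [h] <;> simp
  classical
  have hsg : ∀ j, x j = sg (univ.filter fun j => x j = 1) j := by
    intro j
    unfold sg
    by_cases h : x j = 1
    · rw [if_pos (by simp [h]), h]
    · rw [if_neg (by simp [h])]
      exact (hx j).resolve_left h
  have h1 := hX (univ.filter fun j => x j = 1)
  simp only [← hsg] at h1
  -- comparison
  have h2 : ∑ i ∈ G, |∑ j, sn (T i j) * x j| ≤ ∑ i ∈ G, (|∑ j, T i j * x j| + ε * d) := by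
    refine Finset.sum_le_sum fun i hi => ?_
    have e1 : ∑ j, sn (T i j) * x j = ∑ j, T i j * x j + ∑ j, (sn (T i j) - T i j) * x j := by
      rw [← Finset.sum_add_distrib]
      refine Finset.sum_congr rfl fun j _ => ?_
      ring
    rw [e1]
    refine (abs_add_le _ _).trans (add_le_add_right ?_ _)
    refine (Finset.abs_sum_le_sum_abs _ _).trans ?_
    refine le_trans (le_of_eq ?_) (hT i hi)
    refine Finset.sum_congr rfl fun j _ => ?_
    rw [abs_mul, habs, mul_one, ST5_sn]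
  refine h2.trans ?_
  rw [Finset.sum_add_distrib, Finset.sum_const, nsmul_eq_mul]
  have h3 : (G.card : ℝ) * (ε * d) ≤ ε * (d : ℝ) ^ 2 := by
    have : (G.card : ℝ) * (ε * d) ≤ d * (ε * d) := mul_le_mul_of_nonneg_right hGc (by positivity)
    nlinarith
  have hD : 0 < (d : ℝ) ^ (1 / 2 : ℝ) := by positivity
  have h4 : ∑ i ∈ G, |∑ j, T i j * x j| ≤ 5 * (d : ℝ) ^ (3 / 2 : ℝ) := by
    have h5 : ∑ i ∈ G, |∑ j, T i j * x j| ≤ ∑ i ∈ G, ((d : ℝ) ^ (1 / 2 : ℝ) + |∑ j, T i j * x j| ^ p * ((d : ℝ) ^ (1 / 2 : ℝ)) ^ (1 - p)) :=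
      Finset.sum_le_sum fun i _ => ST5_pt _ _ _ hD hp
    refine h5.trans ?_
    rw [Finset.sum_add_distrib, Finset.sum_const, nsmul_eq_mul, ← Finset.sum_mul]
    have h6 : (G.card : ℝ) * (d : ℝ) ^ (1 / 2 : ℝ) ≤ (d : ℝ) ^ (3 / 2 : ℝ) := by
      have : (d : ℝ) ^ (3 / 2 : ℝ) = d * (d : ℝ) ^ (1 / 2 : ℝ) := by
        rw [← Real.rpow_one_add' hd0.le (by norm_num)]
        congr 1
        norm_num
      rw [this]
      exact mul_le_mul_of_nonneg_right hGc hD.le
    have h7 : (∑ i ∈ G, |∑ j, T i j * x j| ^ p) * ((d : ℝ) ^ (1 / 2 : ℝ)) ^ (1 - p) ≤ 4 * (d : ℝ) ^ (3 / 2 : ℝ) := by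
      refine (mul_le_mul_of_nonneg_right h1 (by positivity)).trans (le_of_eq ?_)
      rw [← Real.rpow_mul hd0.le, mul_assoc, ← Real.rpow_add hd0]
      congr 2
      ring
    linarith
  linarith

end Pool.Agent.helper43.KG
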